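import Pool.Agent.H89.MC.Targets

/-!
# Module CLO (MP_5da387_pr): elementary conditions are clopen, events and numbers are measurable
-/

set_option autoImplicit false

open Classical MeasureTheory ProbabilityTheory Pool.Agent.H96.MC

namespace Pool.Agent.H20.MC.CLO

variable {d q : ℕ}

theorem clopen1 (x : CC d q) (S : Set ℕ) : IsClopen {ω : XX d q | ω.1 x ∈ S} :=
  (isClopen_discrete S).preimage ((continuous_apply x).comp continuous_fst)

theorem clopen2 (x : Pt d q) (S : Set (Finset (Pt d q))) : IsClopen {ω : XX d q | ω.2 x ∈ S} :=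
  (isClopen_discrete S).preimage ((continuous_apply x).comp continuous_snd)

theorem meas1 (x : CC d q) : Measurable fun ω : XX d q => ω.1 x :=
  (measurable_pi_apply x).comp measurable_fst

theorem meas2 (x : Pt d q) : Measurable fun ω : XX d q => ω.2 x :=
  (measurable_pi_apply x).comp measurable_snd

theorem meas1' (x : CC d q) (p : ℕ → Prop) : Measurable fun ω : XX d q => p (ω.1 x) :=
  (Measurable.of_discrete (f := p)).comp (meas1 x)

theorem meas2' (x : Pt d q) (p : Finset (Pt d q) → Prop) :
    Measurable fun ω : XX d q => p (ω.2 x) :=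
  (Measurable.of_discrete (f := p)).comp (meas2 x)

theorem meas22 (x y : Pt d q) : Measurable fun ω : XX d q => ω.2 y = ω.2 x := by
  have h : Measurable fun w : Finset (Pt d q) × Finset (Pt d q) => w.1 = w.2 :=
    Measurable.of_discrete
  exact h.comp ((meas2 y).prodMk (meas2 x))

theorem measMat (V : Finset (Fin q → ℕ)) : Measurable fun ω : XX d q => IsMat V ω := by
  unfold IsMat
  refine Measurable.forall fun x => ?_
  refine Measurable.imp (meas2' x fun F => F.Nonempty) ?_
  refine Measurable.and (meas2' x fun F => x ∈ F) ?_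
  refine Measurable.and (meas2' x fun F => ltype F ∈ V) ?_
  refine Measurable.forall fun y => ?_
  refine Measurable.imp (meas2' x fun F => y ∈ F) ?_
  exact Measurable.and (meas22 x y) (meas1' y.1 fun k => y.2 < k)

theorem measPerf (V : Finset (Fin q → ℕ)) : Measurable fun ω : XX d q => IsPerf V ω := by
  unfold IsPerf
  refine Measurable.and (measMat V) ?_
  refine Measurable.forall fun x => ?_
  exact Measurable.imp (meas1' x.1 fun k => x.2 < k) (meas2' x fun F => F.Nonempty)

theorem clopenFar (x : Pt d q) (r : ℝ) : IsClopen {ω : XX d q | Far r ω x} :=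
  clopen2 x {F | ∃ y ∈ F, ∃ y' ∈ F, r < nrm (y.1.1 - y'.1.1)}

theorem measFar (x : Pt d q) (r : ℝ) : Measurable fun ω : XX d q => Far r ω x :=
  meas2' x fun F => ∃ y ∈ F, ∃ y' ∈ F, r < nrm (y.1.1 - y'.1.1)

theorem numFarAt_eq (c : Cell d) (r : ℝ) (ω : XX d q) : (numFarAt c r ω : ENNReal) =
    ∑ i : Fin q, ∑' k : ℕ, if k < ω.1 (c, i) ∧ Far r ω ((c, i), k) then 1 else 0 := by
  unfold numFarAt
  push_cast
  refine Finset.sum_congr rfl fun i _ => ?_
  rw [tsum_eq_sum (s := Finset.range (ω.1 (c, i)))]
  · rw [Finset.card_filter]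
    push_cast
    refine Finset.sum_congr rfl fun k hk => ?_
    have hk' := Finset.mem_range.1 hk
    by_cases h : Far r ω ((c, i), k)
    · rw [if_pos h, if_pos ⟨hk', h⟩]
    · rw [if_neg h, if_neg fun h' => h h'.2]
  · intro k hk
    rw [Finset.mem_range] at hk
    rw [if_neg fun h' => hk h'.1]

theorem measNum (c : Cell d) (r : ℝ) : Measurable fun ω : XX d q => (numFarAt c r ω : ENNReal) := by
  simp only [numFarAt_eq]
  refine Finset.measurable_sum _ fun i _ => ?_
  refine Measurable.ennreal_tsum fun k => ?_
  refine Measurable.ite ?_ measurable_const measurable_const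
  exact measurableSet_setOf.2 (Measurable.and (meas1' (c, i) fun m => k < m) (measFar _ r))

theorem clo : T_CLO := by
  intro d q V
  exact ⟨clopen1, clopen2, clopenFar, measurableSet_setOf.2 (measMat V),
    measurableSet_setOf.2 (measPerf V), measNum⟩

end Pool.Agent.H20.MC.CLO
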