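import Pool.Agent.H20.MC.SPH

/-!
# Module CONN (MP_5da387_pr): removing disjoint cubes does not disconnect
-/

set_option autoImplicit false

namespace Pool.Agent.H20.MC

open Classical Pool.Agent.H96.MC

theorem sn_tri {d : ℕ} (a b c : Cell d) : sn (a - c) ≤ sn (a - b) + sn (b - c) :=
  sn_le_iff.2 fun i => by
    have h1 := natAbs_le_sn (a - b) i
    have h2 := natAbs_le_sn (b - c) i
    simp only [Pi.sub_apply] at h1 h2 ⊢
    omega

theorem sn_symm {d : ℕ} (a b : Cell d) : sn (a - b) = sn (b - a) := by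
  have h : ∀ a b : Cell d, sn (a - b) ≤ sn (b - a) := fun a b => sn_le_iff.2 fun i => by
    have h1 := natAbs_le_sn (b - a) i
    simp only [Pi.sub_apply] at h1 ⊢
    omega
  exact le_antisymm (h a b) (h b a)

theorem sn_adj {d : ℕ} {a b : Cell d} (h : Adj a b) : sn (a - b) ≤ 1 :=
  sn_le_iff.2 fun i => by
    unfold Adj at h
    rw [← h]
    exact Finset.single_le_sum (f := fun i => (a i - b i).natAbs) (fun _ _ => Nat.zero_le _)
      (Finset.mem_univ i)

theorem conn_aux (h : T_SPH) (d : ℕ) (Y C Y' : Finset (Cell d)) (s : ℕ) (hd : 2 ≤ d)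
    (hY : Conn Y) (hC : ∀ c ∈ C, cube c (s + 1) ⊆ Y)
    (hCC : ∀ c ∈ C, ∀ c' ∈ C, c ≠ c' → 2 * (s + 1) < sn (c - c'))
    (hm : ∀ z, z ∈ Y' ↔ z ∈ Y ∧ ∀ c ∈ C, s < sn (z - c)) : Conn Y' := by
  intro x hx y hy
  change Pth Y' x y
  have hsph : ∀ c ∈ C, (cube c (s + 1)).filter (fun b => sn (b - c) = s + 1) ⊆ Y' := by
    intro c hc b hb
    rw [Finset.mem_filter] at hb
    rw [hm]
    refine ⟨hC c hc hb.1, fun c' hc' => ?_⟩
    by_cases hcc : c = c'
    · subst hcc
      omega
    · have h1 := hCC c hc c' hc' hcc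
      have h2 := sn_tri c b c'
      have h3 := sn_symm b c
      omega
  have hmemS : ∀ (c b : Cell d), sn (b - c) = s + 1 →
      b ∈ (cube c (s + 1)).filter (fun b => sn (b - c) = s + 1) := by
    intro c b hb
    rw [Finset.mem_filter, mem_cube]
    exact ⟨hb.le, hb⟩
  have hconnS : ∀ c ∈ C, ∀ b b' : Cell d, sn (b - c) = s + 1 → sn (b' - c) = s + 1 →
      Pth Y' b b' := by
    intro c hc b b' hb hb'
    have h1 := h d c (s + 1) hd b (hmemS c b hb) b' (hmemS c b' hb')
    exact h1.lift id fun u v huv => ⟨hsph c hc huv.1, hsph c hc huv.2.1, huv.2.2⟩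
  have key : ∀ z, Pth Y x z → (z ∈ Y' ∧ Pth Y' x z) ∨
      (∃ c ∈ C, sn (z - c) ≤ s ∧ ∃ b, sn (b - c) = s + 1 ∧ Pth Y' x b) := by
    intro z hz
    induction hz with
    | refl => exact Or.inl ⟨hx, Relation.ReflTransGen.refl⟩
    | @tail z z' _ hstep ih =>
      obtain ⟨hzY, hz'Y, hadj⟩ := hstep
      have hd1 := sn_adj hadj
      have hd2 := sn_symm z z'
      by_cases hz' : z' ∈ Y'
      · left
        refine ⟨hz', ?_⟩
        rcases ih with ⟨h1, h2⟩ | ⟨c, hc, h1, b, hb, h2⟩
        · exact h2.tail ⟨h1, hz', hadj⟩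
        · have h3 : s < sn (z' - c) := ((hm _).1 hz').2 c hc
          have h4 := sn_tri z' z c
          exact h2.trans (hconnS c hc b z' hb (by omega))
      · right
        obtain ⟨c, hc, hzc⟩ : ∃ c ∈ C, sn (z' - c) ≤ s := by
          by_contra hcon
          push Not at hcon
          exact hz' ((hm _).2 ⟨hz'Y, hcon⟩)
        refine ⟨c, hc, hzc, ?_⟩
        rcases ih with ⟨h1, h2⟩ | ⟨c', hc', h1, b, hb, h2⟩
        · have h3 : s < sn (z - c) := ((hm _).1 h1).2 c hc
          have h4 := sn_tri z z' c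
          exact ⟨z, by omega, h2⟩
        · by_cases hcc : c = c'
          · subst hcc
            exact ⟨b, hb, h2⟩
          · exfalso
            have h3 := hCC c hc c' hc' hcc
            have h4 := sn_tri c z' c'
            have h5 := sn_tri z' z c'
            have h6 := sn_symm c z'
            omega
  rcases key y (hY x ((hm _).1 hx).1 y ((hm _).1 hy).1) with h1 |
    ⟨c, hc, h1, _⟩
  · exact h1.2
  · exact absurd (((hm _).1 hy).2 c hc) (by omega)

theorem mem_filter' {α : Type} (p : α → Prop) (inst : DecidablePred p) (s : Finset α) (a : α) :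
    a ∈ @Finset.filter α p inst s ↔ a ∈ s ∧ p a := Finset.mem_filter

theorem conn (h : T_SPH) : T_CONN := fun d Y C s hd hY hC hCC =>
  conn_aux h d Y C _ s hd hY hC hCC fun z => mem_filter' _ _ _ _

end Pool.Agent.H20.MC
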