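import Pool.Agent.H89.MC.Targets

/-!
# Module CPT (MP_5da387_pr): compactness, limit along an ultrafilter (Prokhorov)
-/

set_option autoImplicit false

open Classical MeasureTheory ProbabilityTheory Pool.Agent.H96.MC Filter Topology

namespace Pool.Agent.H20.MC.CPT

variable {d q : ℕ}

/-- a single law is tight in every discrete coordinate -/
theorem tight1 {Ω α : Type} [MeasurableSpace Ω] [MeasurableSpace α] [Countable α]
    [DiscreteMeasurableSpace α] (m : Measure Ω) [IsFiniteMeasure m] (f : Ω → α)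
    (hf : Measurable f) (ε : ENNReal) (hε : 0 < ε) :
    ∃ S : Finset α, m {ω | f ω ∉ S} ≤ ε := by
  obtain ⟨e, he⟩ := exists_injective_nat α
  have hanti : Antitone fun n : ℕ => {ω | n ≤ e (f ω)} := by
    intro a b hab ω hω
    exact hab.trans hω
  have hmeas : ∀ n : ℕ, NullMeasurableSet {ω | n ≤ e (f ω)} m := fun n =>
    (hf (MeasurableSet.of_discrete (s := {a | n ≤ e a}))).nullMeasurableSet
  have h1 := tendsto_measure_iInter_atTop hmeas hanti ⟨0, measure_ne_top m _⟩
  have h2 : (⋂ n : ℕ, {ω | n ≤ e (f ω)}) = ∅ := by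
    ext ω
    simp only [Set.mem_iInter, Set.mem_ofPred_eq, Set.mem_empty_iff_false, iff_false, not_forall]
    exact ⟨e (f ω) + 1, by omega⟩
  rw [h2, measure_empty] at h1
  obtain ⟨n, hn⟩ := (h1.eventually (gt_mem_nhds hε)).exists
  have hfin : {a : α | e a < n}.Finite := by
    refine Set.Finite.of_finite_image (f := e) ((Set.finite_Iio n).subset ?_) he.injOn
    rintro _ ⟨a, ha, rfl⟩
    exact ha
  refine ⟨hfin.toFinset, (measure_mono ?_).trans hn.le⟩
  intro ω hω
  change n ≤ e (f ω)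
  by_contra hcon
  have h5 : e (f ω) < n := not_le.1 hcon
  exact hω (hfin.mem_toFinset.2 h5)

/-- a sequence of laws which is eventually tight in a coordinate is tight -/
theorem tight2 {Ω α : Type} [MeasurableSpace Ω] [MeasurableSpace α] [Countable α]
    [DiscreteMeasurableSpace α] (μ : ℕ → Measure Ω) (hμ : ∀ J, IsProbabilityMeasure (μ J))
    (f : Ω → α) (hf : Measurable f) (ε : ENNReal) (hε : 0 < ε)
    (h : ∃ S : Finset α, ∀ᶠ J in atTop, μ J {ω | f ω ∉ S} ≤ ε) :
    ∃ S : Finset α, ∀ J, μ J {ω | f ω ∉ S} ≤ ε := by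
  obtain ⟨S, hS⟩ := h
  obtain ⟨J₀, hJ₀⟩ := eventually_atTop.1 hS
  choose R hR using fun J => tight1 (μ J) f hf ε hε
  refine ⟨S ∪ (Finset.range J₀).biUnion R, fun J => ?_⟩
  rcases le_or_gt J₀ J with hJ | hJ
  · refine (measure_mono ?_).trans (hJ₀ J hJ)
    intro ω hω hω'
    exact hω (Finset.mem_union_left _ hω')
  · refine (measure_mono ?_).trans (hR J)
    intro ω hω hω'
    exact hω (Finset.mem_union_right _ (Finset.mem_biUnion.2 ⟨J, Finset.mem_range.2 hJ, hω'⟩))

theorem cpt : T_CPT := by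
  intro d q μ hμ h1 h2
  have hm1 : ∀ x : CC d q, Measurable fun ω : XX d q => ω.1 x := fun x =>
    (measurable_pi_apply x).comp measurable_fst
  have hm2 : ∀ x : Pt d q, Measurable fun ω : XX d q => ω.2 x := fun x =>
    (measurable_pi_apply x).comp measurable_snd
  have h1' : ∀ (x : CC d q) (ε : NNReal), 0 < ε →
      ∃ S : Finset ℕ, ∀ J, μ J {ω | ω.1 x ∉ S} ≤ ε := by
    intro x ε hε
    obtain ⟨S, hS⟩ := h1 x ε (NNReal.coe_pos.2 hε)
    rw [ENNReal.ofReal_coe_nnreal] at hS
    exact tight2 μ hμ (fun ω : XX d q => ω.1 x) (hm1 x) ε (ENNReal.coe_pos.2 hε) ⟨S, hS⟩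
  have h2' : ∀ (x : Pt d q) (ε : NNReal), 0 < ε →
      ∃ S : Finset (Finset (Pt d q)), ∀ J, μ J {ω | ω.2 x ∉ S} ≤ ε := by
    intro x ε hε
    obtain ⟨S, hS⟩ := h2 x ε (NNReal.coe_pos.2 hε)
    rw [ENNReal.ofReal_coe_nnreal] at hS
    exact tight2 μ hμ (fun ω : XX d q => ω.2 x) (hm2 x) ε (ENNReal.coe_pos.2 hε) ⟨S, hS⟩
  let P : ℕ → ProbabilityMeasure (XX d q) := fun J => ⟨μ J, hμ J⟩
  have htight : IsTightMeasureSet
      {((ν : ProbabilityMeasure (XX d q)) : Measure (XX d q)) | ν ∈ Set.range P} := by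
    rw [isTightMeasureSet_iff_exists_isCompact_measure_compl_le]
    intro ε hε
    obtain ⟨ε', hε', hsum⟩ := ENNReal.exists_pos_sum_of_countable hε.ne' (CC d q ⊕ Pt d q)
    choose S hS using fun x : CC d q => h1' x (ε' (Sum.inl x)) (hε' _)
    choose S' hS' using fun x : Pt d q => h2' x (ε' (Sum.inr x)) (hε' _)
    let K : Set (XX d q) := (Set.pi Set.univ fun x => (S x : Set ℕ)) ×ˢ
      (Set.pi Set.univ fun x => (S' x : Set (Finset (Pt d q))))
    have hK : IsCompact K :=
      (isCompact_univ_pi fun x => (S x).finite_toSet.isCompact).prod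
        (isCompact_univ_pi fun x => (S' x).finite_toSet.isCompact)
    refine ⟨K, hK, ?_⟩
    rintro _ ⟨_, ⟨J, rfl⟩, rfl⟩
    change μ J Kᶜ ≤ ε
    have hsub : Kᶜ ⊆ ⋃ i : CC d q ⊕ Pt d q,
        Sum.elim (fun x => {ω : XX d q | ω.1 x ∉ S x}) (fun x => {ω : XX d q | ω.2 x ∉ S' x}) i := by
      intro ω hω
      by_contra hcon
      rw [Set.mem_iUnion, not_exists] at hcon
      refine hω ⟨fun x _ => ?_, fun x _ => ?_⟩
      · have := hcon (Sum.inl x)
        simpa using this
      · have := hcon (Sum.inr x)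
        simpa using this
    refine (measure_mono hsub).trans ((measure_iUnion_le _).trans
      ((ENNReal.tsum_le_tsum fun i => ?_).trans hsum.le))
    rcases i with x | x
    · exact hS x J
    · exact hS' x J
  have hcomp := isCompact_closure_of_isTightMeasureSet htight
  let U : Ultrafilter ℕ := hyperfilter ℕ
  obtain ⟨ν, _, hν⟩ := hcomp.ultrafilter_le_nhds (U.map P) (by
    rw [le_principal_iff]
    exact mem_map.2 (Filter.univ_mem' fun J => subset_closure ⟨J, rfl⟩))
  have hlim : Tendsto P U (𝓝 ν) := hν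
  refine ⟨U, ν, Nat.hyperfilter_le_atTop, ν.2, fun A hA => ?_⟩
  exact ProbabilityMeasure.tendsto_measure_of_null_frontier_of_tendsto' hlim (by
    rw [hA.frontier_eq, measure_empty])

end Pool.Agent.H20.MC.CPT
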