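import Pool.Agent.H96.MC.Targets

/-!
# Modules SPH and CONN (MP_5da387_pr): spheres are connected, removing cubes does not disconnect
-/

set_option autoImplicit false

namespace Pool.Agent.H20.MC

open Classical Pool.Agent.H96.MC

/-- one step inside `Y` -/
def Stp {d : ℕ} (Y : Finset (Cell d)) (a b : Cell d) : Prop := a ∈ Y ∧ b ∈ Y ∧ Adj a b

/-- paths inside `Y` -/
abbrev Pth {d : ℕ} (Y : Finset (Cell d)) : Cell d → Cell d → Prop :=
  Relation.ReflTransGen (Stp Y)

theorem adj_symm {d : ℕ} {a b : Cell d} (h : Adj a b) : Adj b a := by
  unfold Adj at h ⊢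
  rw [← h]
  refine Finset.sum_congr rfl fun i _ => ?_
  omega

theorem pth_symm {d : ℕ} {Y : Finset (Cell d)} {a b : Cell d} (h : Pth Y a b) : Pth Y b a := by
  induction h with
  | refl => exact Relation.ReflTransGen.refl
  | tail _ hbc ih =>
    exact (Relation.ReflTransGen.single (r := Stp Y) ⟨hbc.2.1, hbc.1, adj_symm hbc.2.2⟩).trans ih

theorem adj_update {d : ℕ} (z : Cell d) (j : Fin d) (t t' : ℤ) (h : (t - t').natAbs = 1) :
    Adj (Function.update z j t) (Function.update z j t') := by
  unfold Adj
  rw [Finset.sum_eq_single j]
  · simpa using h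
  · intro i _ hij
    simp [Function.update_of_ne hij]
  · simp

theorem sn_eq_iff {d : ℕ} {z : Cell d} {k : ℕ} (i : Fin d) (hi : (z i).natAbs = k)
    (h : ∀ j, (z j).natAbs ≤ k) : sn z = k :=
  le_antisymm (sn_le_iff.2 h) (hi ▸ natAbs_le_sn z i)

/-- moving one coordinate -/
theorem move {d : ℕ} {c : Cell d} {k : ℕ} {z : Cell d} {i j : Fin d} (hij : j ≠ i)
    (hz : ∀ l, (z l - c l).natAbs ≤ k) (hi : (z i - c i).natAbs = k) (m : ℕ) :
    ∀ t : ℤ, (t - c j).natAbs ≤ k → (t - z j).natAbs = m →
      Pth ((cube c k).filter (fun b => sn (b - c) = k)) z (Function.update z j t) := by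
  have hmem : ∀ t : ℤ, (t - c j).natAbs ≤ k →
      Function.update z j t ∈ (cube c k).filter (fun b => sn (b - c) = k) := by
    intro t ht
    have h1 : sn (Function.update z j t - c) = k := by
      refine sn_eq_iff i ?_ ?_
      · show (Function.update z j t i - c i).natAbs = k
        rw [Function.update_of_ne (Ne.symm hij)]
        exact hi
      · intro l
        show (Function.update z j t l - c l).natAbs ≤ k
        by_cases hl : l = j
        · subst hl
          rw [Function.update_self]
          exact ht
        · rw [Function.update_of_ne hl]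
          exact hz l
    rw [Finset.mem_filter, mem_cube]
    exact ⟨h1.le, h1⟩
  induction m with
  | zero =>
    intro t _ ht
    have h1 : t = z j := by omega
    rw [h1, Function.update_eq_self]
  | succ m ih =>
    intro t ht htm
    have hzj := hz j
    obtain ⟨t', h1, h2, h3⟩ : ∃ t' : ℤ, (t' - c j).natAbs ≤ k ∧ (t' - z j).natAbs = m ∧
        (t' - t).natAbs = 1 := by
      rcases lt_trichotomy t (z j) with h | h | h
      · exact ⟨t + 1, by omega, by omega, by omega⟩
      · omega
      · exact ⟨t - 1, by omega, by omega, by omega⟩
    exact (ih t' h1 h2).tail ⟨hmem t' h1, hmem t ht, adj_update z j t' t h3⟩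

theorem sph : T_SPH := by
  intro d c k hd
  have hne : Nonempty (Fin d) := ⟨⟨0, by omega⟩⟩
  set Y := (cube c k).filter (fun b => sn (b - c) = k) with hY
  -- every point is connected with the corner
  have key : ∀ z ∈ Y, Pth Y z (fun l => c l + k) := by
    intro z hz
    rw [hY, Finset.mem_filter] at hz
    have hz1 : ∀ l, (z l - c l).natAbs ≤ k := fun l => hz.2 ▸ natAbs_le_sn (z - c) l
    obtain ⟨i, hi⟩ : ∃ i, (z i - c i).natAbs = k := by
      by_contra hcon
      push Not at hcon
      have h1 : ∀ l, (z l - c l).natAbs < k := fun l => lt_of_le_of_ne (hz1 l) (hcon l)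
      have h2 : 0 < k := (Nat.zero_le _).trans_lt (h1 hne.some)
      have h3 : sn (z - c) ≤ k - 1 := sn_le_iff.2 fun l => by
        have := h1 l
        show (z l - c l).natAbs ≤ k - 1
        omega
      omega
    -- raise the other coordinates
    have hraise : ∀ s : Finset (Fin d), i ∉ s →
        Pth Y z (fun l => if l ∈ s then c l + k else z l) := by
      intro s
      induction s using Finset.induction_on with
      | empty =>
        intro _
        simp only [Finset.notMem_empty, if_false]
        exact Relation.ReflTransGen.refl
      | insert j s hjs ih =>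
        intro his
        rw [Finset.mem_insert, not_or] at his
        have h1 := ih his.2
        set w : Cell d := fun l => if l ∈ s then c l + k else z l with hw
        have h2 : (fun l => if l ∈ insert j s then c l + k else z l) =
            Function.update w j (c j + k) := by
          funext l
          by_cases hl : l = j
          · subst hl
            simp
          · rw [Function.update_of_ne hl]
            simp only [Finset.mem_insert, hl, false_or, hw]
        rw [h2]
        refine h1.trans (move (i := i) (fun h => his.1 h.symm) ?_ ?_ _ _ ?_ rfl)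
        · intro l
          simp only [hw]
          split_ifs
          · omega
          · exact hz1 l
        · simp only [hw, if_neg his.2]
          exact hi
        · omega
    obtain ⟨j, hj⟩ : ∃ j : Fin d, j ≠ i := by
      by_cases h0 : i = ⟨0, by omega⟩
      · exact ⟨⟨1, by omega⟩, by rw [h0]; intro h; simp [Fin.ext_iff] at h⟩
      · exact ⟨⟨0, by omega⟩, fun h => h0 h.symm⟩
    have h1 := hraise (Finset.univ.erase i) (Finset.notMem_erase i _)
    set w : Cell d := fun l => if l ∈ Finset.univ.erase i then c l + k else z l with hw
    have hwl : ∀ l, l ≠ i → w l = c l + k := by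
      intro l hl
      simp [hw, hl]
    have hwi : w i = z i := by simp [hw]
    have h2 : (fun l => c l + k) = Function.update w i (c i + k) := by
      funext l
      by_cases hl : l = i
      · subst hl
        simp
      · rw [Function.update_of_ne hl, hwl l hl]
    rw [h2]
    refine h1.trans (move (i := j) (Ne.symm hj) ?_ ?_ _ _ ?_ rfl)
    · intro l
      by_cases hl : l = i
      · rw [hl, hwi]
        exact hz1 i
      · rw [hwl l hl]
        omega
    · rw [hwl j hj]
      omega
    · omega
  intro x hx y hy
  exact (key x hx).trans (pth_symm (key y hy))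

end Pool.Agent.H20.MC
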