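import Pool.Agent.H20.MC.CLO
import Pool.Agent.H20.MC.CPT

/-!
# Module TIG (MP_5da387_pr): matchings with controlled diameters are tight
-/

set_option autoImplicit false

open Classical MeasureTheory ProbabilityTheory Pool.Agent.H96.MC Filter Topology

namespace Pool.Agent.H20.MC.TIG

variable {d q : ℕ}

theorem one_le_numFarAt {ω : XX d q} {x : Pt d q} {r : ℝ} (h1 : x.2 < ω.1 x.1) (h2 : Far r ω x) :
    1 ≤ numFarAt x.1.1 r ω := by
  obtain ⟨⟨c, i⟩, k⟩ := x
  unfold numFarAt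
  have h3 : k ∈ (Finset.range (ω.1 (c, i))).filter (fun k => Far r ω ((c, i), k)) :=
    Finset.mem_filter.2 ⟨Finset.mem_range.2 h1, h2⟩
  calc 1 ≤ ((Finset.range (ω.1 (c, i))).filter (fun k => Far r ω ((c, i), k))).card :=
        Finset.card_pos.2 ⟨k, h3⟩
    _ ≤ _ := Finset.single_le_sum (f := fun i : Fin q =>
        ((Finset.range (ω.1 (c, i))).filter (fun k => Far r ω ((c, i), k))).card)
        (fun _ _ => Nat.zero_le _) (Finset.mem_univ i)

theorem tig : T_TIG := by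
  intro d q D μ τ hμ hmap hmat hτ hfar
  have hpois : IsProbabilityMeasure (pois D d) := by
    rw [← hmap 0]
    have := hμ 0
    exact Measure.isProbabilityMeasure_map measurable_fst.aemeasurable
  have key : ∀ (f : Cfg d q → ℕ), Measurable f → ∀ ε > 0, ∃ S : Finset ℕ, ∀ J,
      μ J {ω | f ω.1 ∉ S} ≤ ENNReal.ofReal ε := by
    intro f hf ε hε
    obtain ⟨S, hS⟩ := CPT.tight1 (pois D d) f hf (ENNReal.ofReal ε) (ENNReal.ofReal_pos.2 hε)
    refine ⟨S, fun J => ?_⟩
    have hms : MeasurableSet {n : Cfg d q | f n ∉ S} :=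
      hf (MeasurableSet.of_discrete (s := {a : ℕ | a ∉ S}))
    rw [← hmap J, Measure.map_apply measurable_fst hms] at hS
    exact hS
  constructor
  · intro x ε hε
    obtain ⟨S, hS⟩ := key (fun n => n x) (measurable_pi_apply x) ε hε
    exact ⟨S, Eventually.of_forall hS⟩
  · intro x ε hε
    have hε2 : (0 : ENNReal) < ENNReal.ofReal (ε / 2) := ENNReal.ofReal_pos.2 (by positivity)
    obtain ⟨r, hr0, hr⟩ : ∃ r : ℝ, 0 ≤ r ∧ τ r ≤ ENNReal.ofReal (ε / 2) := by
      have h1 := (hτ.eventually (gt_mem_nhds hε2)).and (eventually_ge_atTop (0 : ℝ))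
      obtain ⟨r, h2, h3⟩ := h1.exists
      exact ⟨r, h3, h2.le⟩
    set W := cube x.1.1 ⌈r⌉₊ with hW
    obtain ⟨S, hS⟩ := key (fun n => ∑ p ∈ W ×ˢ (Finset.univ : Finset (Fin q)), n p)
      (Finset.measurable_sum _ fun p _ => measurable_pi_apply p) (ε / 2) (by positivity)
    set N := S.sup id with hN
    set Y : Finset (Pt d q) := (W ×ˢ (Finset.univ : Finset (Fin q))) ×ˢ Finset.range N with hY
    refine ⟨insert ∅ Y.powerset, ?_⟩
    filter_upwards [hfar x.1.1 r] with J hJ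
    have hsub : ({ω : XX d q | ω.2 x ∉ insert ∅ Y.powerset} : Set (XX d q)) ⊆
        {ω | ¬ IsMat D.V ω} ∪ ({ω | ∑ p ∈ W ×ˢ (Finset.univ : Finset (Fin q)), ω.1 p ∉ S} ∪
          {ω | (1 : ENNReal) ≤ (numFarAt x.1.1 r ω : ENNReal)}) := by
      intro ω hω
      by_contra hcon
      rw [Set.mem_union, Set.mem_union, not_or, not_or] at hcon
      obtain ⟨hc1, hc2, hc3⟩ := hcon
      have hc1' : IsMat D.V ω := not_not.1 hc1
      have hc2' : ∑ p ∈ W ×ˢ (Finset.univ : Finset (Fin q)), ω.1 p ∈ S := not_not.1 hc2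
      have hc3' : ¬ (1 : ENNReal) ≤ (numFarAt x.1.1 r ω : ENNReal) := hc3
      have hω' : ¬ ω.2 x ∈ insert ∅ Y.powerset := hω
      rw [Finset.mem_insert, not_or] at hω'
      obtain ⟨hx, -, hall⟩ := hc1' x (Finset.nonempty_iff_ne_empty.2 hω'.1)
      have hnf : ¬ Far r ω x := fun hF => hc3' (by
        exact_mod_cast one_le_numFarAt (hall x hx).2 hF)
      refine hω'.2 (Finset.mem_powerset.2 fun y hy => ?_)
      have h1 : nrm (y.1.1 - x.1.1) ≤ r := by
        by_contra h2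
        exact hnf ⟨y, hy, x, hx, not_le.1 h2⟩
      have h2 : sn (y.1.1 - x.1.1) ≤ ⌈r⌉₊ := by
        have h3 : (sn (y.1.1 - x.1.1) : ℝ) ≤ (⌈r⌉₊ : ℝ) :=
          (sn_le_nrm _).trans (h1.trans (Nat.le_ceil r))
        exact_mod_cast h3
      have h4 : y.1 ∈ W ×ˢ (Finset.univ : Finset (Fin q)) :=
        Finset.mem_product.2 ⟨mem_cube.2 h2, Finset.mem_univ _⟩
      have h5 : ω.1 y.1 ≤ ∑ p ∈ W ×ˢ (Finset.univ : Finset (Fin q)), ω.1 p :=
        Finset.single_le_sum (f := fun p => ω.1 p) (fun _ _ => Nat.zero_le _) h4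
      have h6 : ∑ p ∈ W ×ˢ (Finset.univ : Finset (Fin q)), ω.1 p ≤ N :=
        Finset.le_sup (f := id) hc2'
      have h7 := (hall y hy).2
      exact Finset.mem_product.2 ⟨h4, Finset.mem_range.2 (by omega)⟩
    have hm1 : μ J {ω | ¬ IsMat D.V ω} = 0 := hmat J
    have hm3 : μ J {ω | (1 : ENNReal) ≤ (numFarAt x.1.1 r ω : ENNReal)} ≤
        ENNReal.ofReal (ε / 2) := by
      have h1 := mul_meas_ge_le_lintegral (μ := μ J) (CLO.measNum (q := q) x.1.1 r) 1
      rw [one_mul] at h1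
      exact h1.trans (hJ.trans hr)
    calc μ J {ω : XX d q | ω.2 x ∉ insert ∅ Y.powerset}
        ≤ μ J ({ω | ¬ IsMat D.V ω} ∪
          ({ω | ∑ p ∈ W ×ˢ (Finset.univ : Finset (Fin q)), ω.1 p ∉ S} ∪
          {ω | (1 : ENNReal) ≤ (numFarAt x.1.1 r ω : ENNReal)})) := measure_mono hsub
      _ ≤ μ J {ω | ¬ IsMat D.V ω} + (μ J {ω | ∑ p ∈ W ×ˢ (Finset.univ : Finset (Fin q)), ω.1 p ∉ S} +
          μ J {ω | (1 : ENNReal) ≤ (numFarAt x.1.1 r ω : ENNReal)}) :=
          (measure_union_le _ _).trans (by gcongr; exact measure_union_le _ _)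
      _ ≤ 0 + (ENNReal.ofReal (ε / 2) + ENNReal.ofReal (ε / 2)) := by
          gcongr
          · exact hm1.le
          · exact hS J
      _ = ENNReal.ofReal ε := by
          rw [zero_add, ← ENNReal.ofReal_add (by positivity) (by positivity)]
          congr 1
          ring

end Pool.Agent.H20.MC.TIG
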